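import Pool.Agent.X14.QH3
import Pool.Agent.X14.QAp3

/-!
# A truncated q-congruence with fifth powers modulo the cube of a cyclotomic polynomial
-/

set_option autoImplicit false

namespace Pool.Agent.Results.MP_40e425_nt.AllBlocks

open Finset Polynomial

noncomputable section

/-- The indeterminate `q`, as an element of `ℚ(q)`. -/
def q : RatFunc ℚ := RatFunc.X

/-- The q-integer `[N] = (1 - q^N)/(1 - q)`. -/
def qint (N : ℕ) : RatFunc ℚ := (1 - q ^ N) / (1 - q)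

/-- The product `a_k(q)`. -/
def a (k : ℕ) : RatFunc ℚ :=
  ∏ j ∈ range k, ((1 - q ^ (2 * j + 1)) ^ 4 * (1 - q ^ (4 * j + 2))) / ((1 - q ^ (2 * j + 2)) ^ 4 * (1 - q ^ (4 * j + 4)))

/-- The rational number `c_k`. -/
def c (k : ℕ) : ℚ := (1 / 4 ^ k * (Nat.choose (2 * k) k : ℚ)) ^ 5

/-- The sum `S_{m,n}(q)`. -/
def S (m n : ℕ) : RatFunc ℚ := ∑ k ∈ range (m * n), (-1) ^ k * qint (4 * k + 1) * a k * q ^ k

/-- The factor `λ_n(q)`. -/
def lam (n : ℕ) : RatFunc ℚ := qint n * ∏ j ∈ range ((n - 1) / 4), ((1 - q ^ (4 * j + 2)) / (1 - q ^ (4 * j + 4))) ^ 2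

/-- The right-hand side `T_{m,n}(q)`. -/
def T (m n : ℕ) : RatFunc ℚ := lam n * ((∑ k ∈ range m, (-1) ^ k * (4 * (k : ℚ) + 1) * c k : ℚ) : RatFunc ℚ)

/-- `F ≡ G (mod P)`: `F - G = P C / D` with polynomials `C`, `D`, where `D` is coprime to `P`. -/
def Cong (P : ℚ[X]) (F G : RatFunc ℚ) : Prop :=
  ∃ C D : ℚ[X], IsCoprime D P ∧
    F - G = algebraMap ℚ[X] (RatFunc ℚ) (P * C) / algebraMap ℚ[X] (RatFunc ℚ) D

open Pool.Agent.X14 QL QBlock
open Pool.Agent.Results.MP_c25fd9_nt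

lemma q_def : q = QL.q := rfl

lemma rr_eq (k : ℕ) : a k = rr 1 k ^ 4 * rr 2 k := by
  unfold a rr
  rw [← prod_pow, ← prod_mul_distrib]
  apply prod_congr rfl
  intro j _
  rw [e_nat' (b := 2 * j + 1) (by push_cast; ring), e_nat' (b := 2 * j + 2) (by push_cast; ring),
    e_nat' (b := 4 * j + 2) (by push_cast; ring), e_nat' (b := 4 * j + 4) (by push_cast; ring), ← q_def, div_pow,
    div_mul_div_comm]

lemma term_eq (k : ℕ) : (-1) ^ k * qint (4 * k + 1) * a k * q ^ k = (1 - QL.q)⁻¹ * tt k := by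
  unfold qint tt T5
  rw [rr_eq, e_nat' (z := 4 * (k : ℤ) + 1) (b := 4 * k + 1) (by push_cast; ring), ← q_def]
  ring

lemma c_eq (k : ℕ) : (-1) ^ k * (4 * (k : ℚ) + 1) * c k = b5 k := by
  unfold c b5
  congr 2
  induction k with
  | zero => simp
  | succ k ih =>
    rw [prod_range_succ, ← ih]
    have h1 : (Nat.choose (2 * (k + 1)) (k + 1) : ℚ) = 2 * (2 * k + 1) / (k + 1) * Nat.choose (2 * k) k := by
      have h2 := Nat.succ_mul_centralBinom_succ k
      unfold Nat.centralBinom at h2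
      have h3 : ((k : ℚ) + 1) ≠ 0 := by positivity
      have h4 : ((k + 1 : ℕ) : ℚ) * (Nat.choose (2 * (k + 1)) (k + 1) : ℚ) = ((2 * (2 * k + 1) : ℕ) : ℚ) * (Nat.choose (2 * k) k : ℚ) := by
        exact_mod_cast h2
      push_cast at h4
      field_simp
      linear_combination h4
    have h3 : ((k : ℚ) + 1) ≠ 0 := by positivity
    have h5 : (2 * (k : ℚ) + 2) ≠ 0 := by positivity
    rw [h1, pow_succ]
    field_simp
    ring

variable {n h : ℕ}

lemma lam_eq (hn : n = 2 * h + 1) (hh : h % 2 = 0) : lam n = (1 - QL.q)⁻¹ * C5 n h := by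
  have hV := AllOneModFour.V_even (n := n) hh 0
  rw [mul_zero, mul_zero, zero_add] at hV
  obtain ⟨g, hg⟩ : ∃ g, h = 2 * g := ⟨h / 2, by omega⟩
  have h1 : (n - 1) / 4 = g := by omega
  have h2 : ∏ j ∈ range g, ((1 - q ^ (4 * j + 2)) / (1 - q ^ (4 * j + 4))) ^ 2 = AllOneModFour.GG h ^ 2 := by
    rw [hg, AllOneModFour.GG_eq, prod_pow]
    congr 1
    apply prod_congr rfl
    intro j _
    rw [q_def, ← pow_mul, ← pow_mul]
    congr 3 <;> ring
  unfold lam C5 qint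
  rw [h1, h2, hV, e_nat, ← q_def]
  have := pow_ne_zero h q_ne
  rw [← q_def] at this
  field_simp

/-- the case `n = 1` -/
lemma tt_three (k : ℕ) : Ap3 ((1 - QL.q)⁻¹ * tt k) (b5 k) 0 0 := by
  have h1 : (1 : RatFunc ℚ) - QL.q ≠ 0 := by
    have := one_sub_ne (j := 1) one_pos; rwa [pow_one] at this
  have eG : ∀ z : ℕ, 1 - QL.q ^ z = (1 - QL.q) * Gz QL.q z := by
    intro z
    unfold Gz
    rw [zpow_natCast, mul_div_cancel₀ _ h1]
  have gne : ∀ z : ℕ, 0 < z → Gz QL.q z ≠ 0 := by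
    intro z hz h0
    have := eG z
    rw [h0, mul_zero] at this
    exact one_sub_ne hz this
  induction k with
  | zero =>
    have e0 : (1 - QL.q)⁻¹ * tt 0 = ((1 : ℚ) : RatFunc ℚ) := by
      unfold tt T5 rr
      rw [e_nat' (z := 4 * ((0 : ℕ) : ℤ) + 1) (b := 1) (by norm_num)]
      simp only [range_zero, prod_empty, pow_zero, pow_one, one_pow, mul_one, Rat.cast_one]
      exact inv_mul_cancel₀ h1
    rw [e0]
    exact (Ap3_const 1).congr (by simp [b5]) rfl rfl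
  | succ k ih =>
    have e1 : (1 - QL.q)⁻¹ * tt (k + 1) = ((1 - QL.q)⁻¹ * tt k) * ((Gz QL.q ((4 * k + 5 : ℕ) : ℤ) * (Gz QL.q ((4 * k + 1 : ℕ) : ℤ))⁻¹) *
        ((((-1 : ℚ) : RatFunc ℚ) * QL.q) * ((Gz QL.q ((2 * k + 1 : ℕ) : ℤ) * (Gz QL.q ((2 * k + 2 : ℕ) : ℤ))⁻¹) ^ 4 *
          (Gz QL.q ((4 * k + 2 : ℕ) : ℤ) * (Gz QL.q ((4 * k + 4 : ℕ) : ℤ))⁻¹)))) := by
      unfold tt
      rw [T5_succ]
      unfold f5
      rw [e_nat' (z := 4 * ((k + 1 : ℕ) : ℤ) + 1) (b := 4 * k + 5) (by push_cast; ring),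
        e_nat' (z := 4 * (k : ℤ) + 1) (b := 4 * k + 1) (by push_cast; ring),
        e_nat' (b := 2 * k + 1) (by push_cast; ring), e_nat' (b := 2 * k + 2) (by push_cast; ring),
        e_nat' (b := 4 * k + 2) (by push_cast; ring), e_nat' (b := 4 * k + 4) (by push_cast; ring),
        eG, eG, eG, eG, eG, eG]
      have n1 := gne (4 * k + 1) (by omega)
      have n2 := gne (2 * k + 2) (by omega)
      have n3 := gne (4 * k + 4) (by omega)
      generalize Gz QL.q ((4 * k + 5 : ℕ) : ℤ) = g1 at *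
      generalize Gz QL.q ((4 * k + 1 : ℕ) : ℤ) = g2 at *
      generalize Gz QL.q ((2 * k + 1 : ℕ) : ℤ) = g3 at *
      generalize Gz QL.q ((2 * k + 2 : ℕ) : ℤ) = g4 at *
      generalize Gz QL.q ((4 * k + 2 : ℕ) : ℤ) = g5 at *
      generalize Gz QL.q ((4 * k + 4 : ℕ) : ℤ) = g6 at *
      generalize 1 - QL.q = u at *
      push_cast
      field_simp
    rw [e1]
    have a1 := (Ap3_Gz (4 * k + 5)).mul ((Ap3_Gz (4 * k + 1)).inv (by positivity) (gne _ (by omega)))
    have a2 := ((Ap3_Gz (2 * k + 1)).mul ((Ap3_Gz (2 * k + 2)).inv (by positivity) (gne _ (by omega)))).pow 4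
    have a3 := (Ap3_Gz (4 * k + 2)).mul ((Ap3_Gz (4 * k + 4)).inv (by positivity) (gne _ (by omega)))
    have a4 := (Ap3_const (-1)).mul Ap3_q
    have a5 := ih.mul (a1.mul (a4.mul (a2.mul a3)))
    refine a5.congr ?_ ?_ ?_
    · unfold b5
      rw [prod_range_succ]
      push_cast
      have c1 : (4 * (k : ℚ) + 1) ≠ 0 := by positivity
      have c2 : (2 * (k : ℚ) + 2) ≠ 0 := by positivity
      have c3 : (4 * (k : ℚ) + 4) ≠ 0 := by positivity
      have c4 : ((k : ℚ) + 1) ≠ 0 := by positivity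
      field_simp
      ring
    · push_cast; ring
    · push_cast; ring

lemma cong_of_QO {Φ : ℚ[X]} (hΦ : ¬ IsUnit Φ) {F G : RatFunc ℚ} (h : QO Φ 3 (F - G)) : Cong (Φ ^ 3) F G := by
  obtain ⟨y, ⟨a, b, h1, h2⟩, h3⟩ := h
  refine ⟨a, b, h1.pow_right, ?_⟩
  have hb : b ≠ 0 := by
    rintro rfl
    exact hΦ (isCoprime_zero_left.1 h1)
  rw [eq_div_iff (al_ne hb), h3, map_mul, map_pow, mul_assoc, h2]

/-- **Full positive answer to Q1.** For all positive integers `m` and `n` with `n ≡ 1 (mod 4)` (the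
case `n = 1` included), `S_{m,n}(q) ≡ T_{m,n}(q) (mod Φ_n(q)^3)`. -/
theorem result (m n : ℕ) (_hm : 1 ≤ m) (hn4 : n % 4 = 1) : Cong (cyclotomic n ℚ ^ 3) (S m n) (T m n) := by
  apply cong_of_QO (cyclotomic.irreducible_rat (by omega)).not_isUnit
  obtain ⟨h, hn⟩ : ∃ h, n = 2 * h + 1 := ⟨n / 2, by omega⟩
  have hh : h % 2 = 0 := by omega
  have hn0 : 0 < n := by omega
  have e1 : S m n = ∑ J ∈ range m, (1 - QL.q)⁻¹ * ∑ l ∈ range n, tt (n * J + l) := by
    unfold S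
    rw [mul_comm m n]
    simp only [term_eq]
    rw [sum_range_blocks]
    apply sum_congr rfl
    intro J _
    rw [mul_sum]
  have e2 : T m n = ∑ J ∈ range m, (1 - QL.q)⁻¹ * (C5 n h * (b5 J : ℚ)) := by
    unfold T
    rw [lam_eq hn hh]
    push_cast
    rw [mul_sum]
    apply sum_congr rfl
    intro J _
    have := c_eq J
    rw [← this]
    push_cast
    ring
  rw [e1, e2]
  apply Eqm.sum (P := cyclotomic n ℚ) (k := 3)
  intro J _
  rcases Nat.lt_or_ge 1 n with h1 | h1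
  · have h2 : (1 - QL.q)⁻¹ ∈ Loc (cyclotomic n ℚ) := by
      have := inv_one_sub_mem (N := n) (b := 1) (by
        intro h; have := Nat.le_of_dvd one_pos h; omega)
      rwa [pow_one] at this
    exact Eqm.mul_left h2 (blocks5' hn hh J)
  · have h3 : n = 1 := by omega
    have h4 : h = 0 := by omega
    subst h3 h4
    have h5 := tt_three J
    unfold Ap3 at h5
    have e3 : C5 1 0 = 1 - QL.q := by
      have hV := AllOneModFour.V_zero (n := 1) (h := 0) (by norm_num)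
      have h2 : (DD 2 1 0 0) = 1 := by unfold DD; simp
      unfold C5
      rw [hV, h2, e_nat]
      simp
    have h1' : (1 : RatFunc ℚ) - QL.q ≠ 0 := by
      have := one_sub_ne (j := 1) one_pos; rwa [pow_one] at this
    rw [e3, sum_range_one, one_mul, add_zero, ← mul_assoc, inv_mul_cancel₀ h1', one_mul]
    convert h5 using 1
    push_cast
    ring

end

end Pool.Agent.Results.MP_40e425_nt.AllBlocks
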